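import Pool.Agent.Helper29.H2.St3

set_option autoImplicit false

namespace Pool.Agent.Helper29.H2

open Finset

private lemma dmk_eq_D3 (b n k : ℕ) (hb : 0 < b) :
    dmk b n k = (∑ i ∈ range n, (2 ^ b) ^ i) * (2 ^ k - 1) := by
  unfold dmk
  rw [Nat.geomSum_eq, pow_mul]
  calc 2 = 2 ^ 1 := by norm_num
    _ ≤ 2 ^ b := Nat.pow_le_pow_right (by norm_num) hb

private lemma dg_zero_D3 (b Z : ℕ) : dg b Z 0 = Z % 2 ^ b := by
  unfold dg; simp

private lemma dg_succ_D3 (b Z i : ℕ) : dg b Z (i + 1) = dg b (Z / 2 ^ b) i := by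
  unfold dg
  rw [Nat.div_div_eq_div_mul, ← pow_add]
  congr 3
  ring

private lemma plus_D3 (b : ℕ) (hb : 0 < b) : ∀ n Z : ℕ, Z < (2 ^ b) ^ n → (∀ S < n, dg b Z S + 1 < 2 ^ b) →
    Z + ∑ i ∈ range n, (2 ^ b) ^ i < (2 ^ b) ^ n ∧
    ∀ S < n, dg b (Z + ∑ i ∈ range n, (2 ^ b) ^ i) S = dg b Z S + 1 := by
  intro n
  induction n with
  | zero =>
    intro Z hZ _
    refine ⟨by simpa using hZ, ?_⟩
    intro S hS
    exact absurd hS (Nat.not_lt_zero S)
  | succ n ih =>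
    intro Z hZ hd
    have hq : 0 < 2 ^ b := by positivity
    obtain ⟨q, hqd⟩ : ∃ q, q = 2 ^ b := ⟨_, rfl⟩
    have hZ' : Z / 2 ^ b < (2 ^ b) ^ n := by
      rw [Nat.div_lt_iff_lt_mul hq, ← pow_succ]
      exact hZ
    have h0 := hd 0 (Nat.succ_pos n)
    rw [dg_zero_D3] at h0
    obtain ⟨h1, h2⟩ := ih (Z / 2 ^ b) hZ' (fun S hS => by
      rw [← dg_succ_D3]
      exact hd (S + 1) (by omega))
    have hG : ∑ i ∈ range (n + 1), (2 ^ b) ^ i = 2 ^ b * (∑ i ∈ range n, (2 ^ b) ^ i) + 1 := by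
      rw [sum_range_succ', mul_sum]
      congr 1
      refine sum_congr rfl fun i _ => ?_
      rw [pow_succ, mul_comm]
    obtain ⟨G, hGd⟩ : ∃ G, G = ∑ i ∈ range n, (2 ^ b) ^ i := ⟨_, rfl⟩
    rw [hG]
    rw [← hGd] at h1 h2 ⊢
    have hdm := Nat.div_add_mod Z (2 ^ b)
    rw [← hqd] at hdm h0 h1 h2 hZ' hq ⊢
    have e1 : Z + (q * G + 1) = q * (Z / q + G) + (Z % q + 1) := by
      rw [mul_add]; omega
    have hdiv : (Z + (q * G + 1)) / q = Z / q + G := by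
      rw [e1, Nat.mul_add_div hq, Nat.div_eq_of_lt h0, add_zero]
    have hmod : (Z + (q * G + 1)) % q = Z % q + 1 := by
      rw [e1, Nat.mul_add_mod, Nat.mod_eq_of_lt h0]
    refine ⟨?_, ?_⟩
    · rw [pow_succ, ← Nat.div_lt_iff_lt_mul hq, hdiv]
      exact h1
    · intro S hS
      rcases S with _ | S
      · rw [dg_zero_D3, dg_zero_D3, ← hqd, hmod]
      · rw [dg_succ_D3, dg_succ_D3, ← hqd, hdiv]
        exact h2 S (by omega)

private lemma mask_D3 (b m : ℕ) (hm : m < 2 ^ b) : ∀ n S : ℕ,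
    dg b ((∑ i ∈ range n, (2 ^ b) ^ i) * m) S ≤ m := by
  have hq : 0 < 2 ^ b := by positivity
  intro n
  induction n with
  | zero =>
    intro S
    unfold dg
    simp
  | succ n ih =>
    intro S
    have hG : ∑ i ∈ range (n + 1), (2 ^ b) ^ i = 2 ^ b * (∑ i ∈ range n, (2 ^ b) ^ i) + 1 := by
      rw [sum_range_succ', mul_sum]
      congr 1
      refine sum_congr rfl fun i _ => ?_
      rw [pow_succ, mul_comm]
    have e : (∑ i ∈ range (n + 1), (2 ^ b) ^ i) * m = 2 ^ b * ((∑ i ∈ range n, (2 ^ b) ^ i) * m) + m := by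
      rw [hG]; ring
    rw [e]
    rcases S with _ | S
    · rw [dg_zero_D3, Nat.mul_add_mod]
      exact Nat.mod_le _ _
    · rw [dg_succ_D3, Nat.mul_add_div hq, Nat.div_eq_of_lt hm, add_zero]
      exact ih S

theorem hD3 : StD3 := by
  intro b n Z hb hZ
  refine ⟨?_, ?_⟩
  · intro hd
    have e : dmk b n 1 = ∑ i ∈ range n, (2 ^ b) ^ i := by
      rw [dmk_eq_D3 b n 1 hb]; simp
    rw [e, pow_mul]
    rw [pow_mul] at hZ
    exact plus_D3 b hb n Z hZ hd
  · intro β hβ hl S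
    have hm : 2 ^ β - 1 < 2 ^ b := by
      have h1 : 2 ^ β ≤ 2 ^ b := Nat.pow_le_pow_right (by norm_num) hβ
      have h2 : 0 < 2 ^ β := by positivity
      omega
    have h1 := mask_D3 b (2 ^ β - 1) hm n S
    rw [← dmk_eq_D3 b n β hb] at h1
    have h2 : dg b Z S ≤ dg b (dmk b n β) S := by
      conv_lhs => rw [← hl]
      unfold dg
      show ((Z &&& dmk b n β) / 2 ^ (b * S)) % 2 ^ b ≤ _
      rw [Nat.and_div_two_pow, Nat.and_mod_two_pow]
      exact Nat.and_le_right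
    have h3 : 0 < 2 ^ β := by positivity
    omega

end Pool.Agent.Helper29.H2
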